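import Pool.Agent.L0h98.KC.Def

set_option autoImplicit false

/-!
# Project KC, SIMP: a positive proportion of the configurations is simple.
-/

namespace Pool.Agent.L0h64.KC

open Finset Classical
open Pool.Agent.N404.LF (cnt)
open Pool.Agent.L0h98.KC

section basics

variable {S : Type} [DecidableEq S] {X : S → Type} [∀ s, DecidableEq (X s)]

/-- The column slot that is joined to a row slot. -/
def F (π : Cf X) (q : Σ s, X s) : Σ s, X s := ⟨q.1, π q.1 q.2⟩

theorem F_inj (π : Cf X) : Function.Injective (F π) := by
  rintro ⟨s, p⟩ ⟨t, p'⟩ h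
  simp only [F, Sigma.mk.injEq] at h
  obtain ⟨h1, h2⟩ := h
  subst h1
  have := (π s).injective (eq_of_heq h2)
  rw [this]

/-- The switching of the slots `q` and `y`. -/
def sw (π : Cf X) (q y : Σ s, X s) : Cf X := fun s =>
  if h : q.1 = s ∧ y.1 = s then π s * Equiv.swap (h.1 ▸ q.2) (h.2 ▸ y.2) else π s

theorem sw_sw (π : Cf X) (q y : Σ s, X s) : sw (sw π q y) q y = π := by
  funext s
  unfold sw
  by_cases h : q.1 = s ∧ y.1 = s
  · simp only [dif_pos h, mul_assoc, Equiv.swap_mul_self, mul_one]
  · simp only [dif_neg h]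

theorem F_sw (π : Cf X) (q y : Σ s, X s) (h : y.1 = q.1) (z : Σ s, X s) :
    F (sw π q y) z = F π (Equiv.swap q y z) := by
  obtain ⟨s, p⟩ := q
  obtain ⟨t, p'⟩ := y
  simp only at h
  subst h
  obtain ⟨u, r⟩ := z
  by_cases hu : t = u
  · subst hu
    by_cases h1 : r = p
    · subst h1
      rw [Equiv.swap_apply_left]
      simp [F, sw]
    · by_cases h2 : r = p'
      · subst h2
        rw [Equiv.swap_apply_right]
        simp [F, sw]
      · rw [Equiv.swap_apply_of_ne_of_ne (a := (⟨t, p⟩ : Σ s, X s)) (b := ⟨t, p'⟩)]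
        · simp [F, sw, Equiv.swap_apply_of_ne_of_ne h1 h2]
        · simpa using h1
        · simpa using h2
  · have h1 : (⟨u, r⟩ : Σ s, X s) ≠ ⟨t, p⟩ := by
      intro h
      exact hu (congrArg Sigma.fst h).symm
    have h2 : (⟨u, r⟩ : Σ s, X s) ≠ ⟨t, p'⟩ := by
      intro h
      exact hu (congrArg Sigma.fst h).symm
    rw [Equiv.swap_apply_of_ne_of_ne h1 h2]
    simp only [F, sw, and_self, dif_neg hu]

end basics

section counts

variable {S R V : Type} [Fintype S] {X : S → Type} [∀ s, Fintype (X s)]

theorem card_slots (a : ∀ s, X s → R) (i : R) :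
    (univ.filter fun q : Σ s, X s => a q.1 q.2 = i).card = ∑ s, cnt (a s) i := by
  rw [Finset.card_filter, Fintype.sum_sigma]
  refine Finset.sum_congr rfl fun s _ => ?_
  rw [cnt, Finset.card_filter]

theorem card_col (b : ∀ s, X s → V) (π : Cf X) (v : V) :
    (univ.filter fun q : Σ s, X s => b q.1 (π q.1 q.2) = v).card ≤ ∑ s, cnt (b s) v := by
  rw [← card_slots]
  refine Finset.card_le_card_of_injOn (F π) ?_ (F_inj π).injOn
  intro q hq
  simpa [F] using hq

end counts

section main

variable {S R V : Type} [Fintype S] [DecidableEq S] {X : S → Type} [∀ s, Fintype (X s)]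
  [∀ s, DecidableEq (X s)] (a : ∀ s, X s → R) (b : ∀ s, X s → V)

/-- The row of a row slot. -/
def row (q : Σ s, X s) : R := a q.1 q.2

/-- The column of the slot `q` in the configuration `π`. -/
def col (π : Cf X) (q : Σ s, X s) : V := b q.1 (π q.1 q.2)

theorem col_sw (π : Cf X) (q y : Σ s, X s) (h : y.1 = q.1) (z : Σ s, X s) :
    col b (sw π q y) z = col b π (Equiv.swap q y z) := by
  have := congrArg (fun w : Σ s, X s => b w.1 w.2) (F_sw π q y h z)
  simpa [F, col] using this

/-- The doubles of `π`. -/
noncomputable def dbl (π : Cf X) : Finset ((Σ s, X s) × (Σ s, X s)) :=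
  univ.filter fun x => x.1 ≠ x.2 ∧ row a x.1 = row a x.2 ∧ col b π x.1 = col b π x.2

theorem simple_iff (π : Cf X) : Simple a b π ↔ (dbl a b π).card = 0 := by
  rw [Finset.card_eq_zero, dbl, Finset.filter_eq_empty_iff]
  constructor
  · rintro h ⟨q, q'⟩ - ⟨h1, h2, h3⟩
    exact h1 (h q q' h2 h3)
  · intro h q q' h2 h3
    by_contra h1
    exact h (x := (q, q')) (Finset.mem_univ _) ⟨h1, h2, h3⟩

variable {a b} {Δ : ℕ}

theorem card_class (s : S) : (univ.filter fun y : Σ s, X s => y.1 = s).card = Fintype.card (X s) := by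
  have : (univ.filter fun y : Σ s, X s => y.1 = s) =
      (univ : Finset (X s)).map ⟨fun p => (⟨s, p⟩ : Σ s, X s), sigma_mk_injective⟩ := by
    ext ⟨t, p⟩
    simp only [mem_filter, mem_univ, true_and, mem_map, Function.Embedding.coeFn_mk,
      Sigma.mk.injEq]
    constructor
    · intro h
      subst h
      exact ⟨p, rfl, HEq.rfl⟩
    · rintro ⟨_, h, _⟩
      exact h.symm
  rw [this, Finset.card_map, Finset.card_univ]

theorem card_pair (hb : ∀ (π : Cf X) (v : V), (univ.filter fun q => col b π q = v).card ≤ Δ)
    (q q' : Σ s, X s) (hne : q ≠ q') :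
    (Fintype.card (X q.1) - 1) * (univ.filter fun π : Cf X => col b π q = col b π q').card ≤
      Δ * Fintype.card (Cf X) := by
  have hG : Fintype.card (X q.1) - 1 ≤
      (univ.filter fun y : Σ s, X s => y.1 = q.1 ∧ y ≠ q').card := by
    have h1 : ((univ.filter fun y : Σ s, X s => y.1 = q.1).erase q').card ≤
        (univ.filter fun y : Σ s, X s => y.1 = q.1 ∧ y ≠ q').card := by
      apply Finset.card_le_card
      intro y hy
      simp only [mem_erase, mem_filter, mem_univ, true_and] at hy ⊢
      exact ⟨hy.2, hy.1⟩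
    refine le_trans ?_ h1
    rw [← card_class (X := X) q.1]
    exact Finset.pred_card_le_card_erase
  have hT : (univ.filter fun x : Cf X × (Σ s, X s) => col b x.1 x.2 = col b x.1 q').card ≤
      Δ * Fintype.card (Cf X) := by
    rw [Finset.card_filter, Fintype.sum_prod_type]
    calc ∑ π : Cf X, ∑ y : Σ s, X s, (if col b π y = col b π q' then 1 else 0)
        ≤ ∑ _π : Cf X, Δ := by
          refine Finset.sum_le_sum fun π _ => ?_
          rw [← Finset.card_filter]
          exact hb π _
      _ = Δ * Fintype.card (Cf X) := by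
          rw [Finset.sum_const, Finset.card_univ, smul_eq_mul, mul_comm]
  refine le_trans ?_ hT
  calc (Fintype.card (X q.1) - 1) * (univ.filter fun π : Cf X => col b π q = col b π q').card
      ≤ (univ.filter fun y : Σ s, X s => y.1 = q.1 ∧ y ≠ q').card *
        (univ.filter fun π : Cf X => col b π q = col b π q').card := Nat.mul_le_mul_right _ hG
    _ = ((univ.filter fun π : Cf X => col b π q = col b π q') ×ˢ
        (univ.filter fun y : Σ s, X s => y.1 = q.1 ∧ y ≠ q')).card := by
          rw [Finset.card_product, mul_comm]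
    _ ≤ _ := by
        refine Finset.card_le_card_of_injOn (fun x => (sw x.1 q x.2, x.2)) ?_ ?_
        · rintro ⟨π, y⟩ hx
          simp only [coe_product, Set.mem_prod, coe_filter, mem_univ, true_and,
            Set.mem_ofPred_eq] at hx
          obtain ⟨h1, h2, h3⟩ := hx
          simp only [coe_filter, mem_univ, true_and, Set.mem_ofPred_eq]
          rw [col_sw b π q y h2, col_sw b π q y h2, Equiv.swap_apply_right,
            Equiv.swap_apply_of_ne_of_ne hne.symm h3.symm, h1]
        · rintro ⟨π, y⟩ - ⟨ρ, z⟩ - h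
          simp only [Prod.mk.injEq] at h
          obtain ⟨h1, h2⟩ := h
          subst h2
          have := congrArg (fun σ => sw σ q y) h1
          simp only [sw_sw] at this
          rw [this]

theorem sum_dbl (ha : ∀ i : R, (univ.filter fun q : Σ s, X s => row a q = i).card ≤ Δ)
    (hb : ∀ (π : Cf X) (v : V), (univ.filter fun q => col b π q = v).card ≤ Δ)
    (m : ℕ) (hm : ∀ s, Fintype.card (Σ s, X s) ≤ m * Fintype.card (X s))
    (h2 : ∀ s, 2 ≤ Fintype.card (X s)) (hN : 0 < Fintype.card (Σ s, X s)) :
    ∑ π : Cf X, (dbl a b π).card ≤ 2 * m * Δ ^ 2 * Fintype.card (Cf X) := by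
  set N := Fintype.card (Σ s, X s) with hNdef
  set P := Fintype.card (Cf X) with hP
  set pr := univ.filter fun x : (Σ s, X s) × (Σ s, X s) => x.1 ≠ x.2 ∧ row a x.1 = row a x.2
    with hpr
  have hprc : pr.card ≤ N * Δ := by
    rw [hpr, Finset.card_filter, Fintype.sum_prod_type]
    calc ∑ q : Σ s, X s, ∑ y : Σ s, X s, (if q ≠ y ∧ row a q = row a y then 1 else 0)
        ≤ ∑ _q : Σ s, X s, Δ := by
          refine Finset.sum_le_sum fun q _ => ?_
          rw [← Finset.card_filter]
          refine le_trans (Finset.card_le_card ?_) (ha (row a q))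
          intro y hy
          simp only [mem_filter, mem_univ, true_and] at hy ⊢
          exact hy.2.symm
      _ = N * Δ := by
          rw [Finset.sum_const, Finset.card_univ, smul_eq_mul]
  have hsum : ∑ π : Cf X, (dbl a b π).card =
      ∑ x ∈ pr, (univ.filter fun π : Cf X => col b π x.1 = col b π x.2).card := by
    simp only [dbl, Finset.card_filter]
    rw [Finset.sum_comm, hpr, Finset.sum_filter]
    refine Finset.sum_congr rfl fun x _ => ?_
    by_cases h : x.1 ≠ x.2 ∧ row a x.1 = row a x.2
    · rw [if_pos h]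
      refine Finset.sum_congr rfl fun π _ => ?_
      congr 1
      simp [h.1, h.2]
    · rw [if_neg h]
      refine Finset.sum_eq_zero fun π _ => ?_
      rw [if_neg]
      rintro ⟨h1, h2, -⟩
      exact h ⟨h1, h2⟩
  have key : N * ∑ π : Cf X, (dbl a b π).card ≤ N * (2 * m * Δ ^ 2 * P) := by
    rw [hsum, Finset.mul_sum]
    calc ∑ x ∈ pr, N * (univ.filter fun π : Cf X => col b π x.1 = col b π x.2).card
        ≤ ∑ _x ∈ pr, 2 * m * (Δ * P) := by
          refine Finset.sum_le_sum fun x hx => ?_
          have hx1 : x.1 ≠ x.2 := by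
            simp only [hpr, mem_filter] at hx
            exact hx.2.1
          have h3 := card_pair hb x.1 x.2 hx1
          have h4 : N ≤ 2 * m * (Fintype.card (X x.1.1) - 1) := by
            refine (hm x.1.1).trans ?_
            have := h2 x.1.1
            calc m * Fintype.card (X x.1.1) ≤ m * (2 * (Fintype.card (X x.1.1) - 1)) :=
                  Nat.mul_le_mul_left _ (by omega)
              _ = _ := by ring
          calc N * (univ.filter fun π : Cf X => col b π x.1 = col b π x.2).card
              ≤ (2 * m * (Fintype.card (X x.1.1) - 1)) *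
                (univ.filter fun π : Cf X => col b π x.1 = col b π x.2).card :=
                Nat.mul_le_mul_right _ h4
            _ = 2 * m * ((Fintype.card (X x.1.1) - 1) *
                (univ.filter fun π : Cf X => col b π x.1 = col b π x.2).card) := by ring
            _ ≤ _ := Nat.mul_le_mul_left _ h3
      _ = pr.card * (2 * m * (Δ * P)) := by rw [Finset.sum_const, smul_eq_mul]
      _ ≤ (N * Δ) * (2 * m * (Δ * P)) := Nat.mul_le_mul_right _ hprc
      _ = N * (2 * m * Δ ^ 2 * P) := by ring
  exact Nat.le_of_mul_le_mul_left key hN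

/-- The good slots for a switching with `q`. -/
noncomputable def good (a : ∀ s, X s → R) (b : ∀ s, X s → V) (π : Cf X) (q : Σ s, X s) :
    Finset (Σ s, X s) :=
  univ.filter fun y => y.1 = q.1 ∧ (∀ z, row a z = row a q → col b π z ≠ col b π y) ∧
    ∀ z, row a z = row a y → col b π z ≠ col b π q

theorem card_good (ha : ∀ i : R, (univ.filter fun q : Σ s, X s => row a q = i).card ≤ Δ)
    (hb : ∀ (π : Cf X) (v : V), (univ.filter fun q => col b π q = v).card ≤ Δ)
    (π : Cf X) (q : Σ s, X s) :
    Fintype.card (X q.1) ≤ (good a b π q).card + 2 * Δ ^ 2 := by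
  rw [← card_class (X := X) q.1]
  set B1 := (univ.filter fun z : Σ s, X s => row a z = row a q).biUnion fun z =>
    univ.filter fun y : Σ s, X s => col b π y = col b π z with hB1
  set B2 := (univ.filter fun z : Σ s, X s => col b π z = col b π q).biUnion fun z =>
    univ.filter fun y : Σ s, X s => row a y = row a z with hB2
  have h1 : B1.card ≤ Δ * Δ := by
    refine (Finset.card_biUnion_le_card_mul _ _ Δ fun z _ => hb π _).trans ?_
    exact Nat.mul_le_mul_right _ (ha _)
  have h2 : B2.card ≤ Δ * Δ := by
    refine (Finset.card_biUnion_le_card_mul _ _ Δ fun z _ => ha _).trans ?_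
    exact Nat.mul_le_mul_right _ (hb π _)
  have h3 : (univ.filter fun y : Σ s, X s => y.1 = q.1) ⊆ good a b π q ∪ (B1 ∪ B2) := by
    intro y hy
    simp only [mem_filter, mem_univ, true_and] at hy
    by_cases hg : y ∈ good a b π q
    · exact Finset.mem_union_left _ hg
    · refine Finset.mem_union_right _ ?_
      simp only [good, mem_filter, mem_univ, true_and, hy, not_and_or, not_forall,
        not_not] at hg
      rcases hg with ⟨z, hz, hz'⟩ | ⟨z, hz, hz'⟩
      · refine Finset.mem_union_left _ ?_
        simp only [hB1, mem_biUnion, mem_filter, mem_univ, true_and]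
        exact ⟨z, hz, hz'.symm⟩
      · refine Finset.mem_union_right _ ?_
        simp only [hB2, mem_biUnion, mem_filter, mem_univ, true_and]
        exact ⟨z, hz', hz.symm⟩
  calc (univ.filter fun y : Σ s, X s => y.1 = q.1).card
      ≤ (good a b π q ∪ (B1 ∪ B2)).card := Finset.card_le_card h3
    _ ≤ (good a b π q).card + (B1 ∪ B2).card := Finset.card_union_le _ _
    _ ≤ (good a b π q).card + (B1.card + B2.card) :=
        Nat.add_le_add_left (Finset.card_union_le _ _) _
    _ ≤ _ := by nlinarith

theorem dbl_sw (π : Cf X) (q q' y : Σ s, X s) (hq : (q, q') ∈ dbl a b π)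
    (hy : y ∈ good a b π q) : (dbl a b (sw π q y)).card < (dbl a b π).card := by
  simp only [dbl, mem_filter, mem_univ, true_and] at hq
  obtain ⟨hq1, hq2, hq3⟩ := hq
  simp only [good, mem_filter, mem_univ, true_and] at hy
  obtain ⟨hy1, hy2, hy3⟩ := hy
  -- the rows are different
  have hrow : row a y ≠ row a q := fun h => hy2 y h rfl
  have hcq : ∀ z, z ≠ q → z ≠ y → col b (sw π q y) z = col b π z := by
    intro z h1 h2
    rw [col_sw b π q y hy1, Equiv.swap_apply_of_ne_of_ne h1 h2]
  have hcq1 : col b (sw π q y) q = col b π y := by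
    rw [col_sw b π q y hy1, Equiv.swap_apply_left]
  have hcq2 : col b (sw π q y) y = col b π q := by
    rw [col_sw b π q y hy1, Equiv.swap_apply_right]
  have A1 : ∀ z, z ≠ q → row a z = row a q → col b (sw π q y) z ≠ col b (sw π q y) q := by
    intro z hz1 hz2
    have hzy : z ≠ y := by
      rintro rfl
      exact hrow hz2
    rw [hcq z hz1 hzy, hcq1]
    exact hy2 z hz2
  have A2 : ∀ z, z ≠ y → row a z = row a y → col b (sw π q y) z ≠ col b (sw π q y) y := by
    intro z hz1 hz2
    have hzq : z ≠ q := by
      rintro rfl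
      exact hrow hz2.symm
    rw [hcq z hzq hz1, hcq2]
    exact hy3 z hz2
  refine Finset.card_lt_card (Finset.ssubset_iff_subset_ne.2 ⟨?_, ?_⟩)
  · rintro ⟨x, x'⟩ hx
    simp only [dbl, mem_filter, mem_univ, true_and] at hx ⊢
    obtain ⟨h1, h2, h3⟩ := hx
    have hxq : x ≠ q := by
      rintro rfl
      exact A1 x' (Ne.symm h1) h2.symm h3.symm
    have hxq' : x' ≠ q := by
      rintro rfl
      exact A1 x h1 h2 h3
    have hxy : x ≠ y := by
      rintro rfl
      exact A2 x' (Ne.symm h1) h2.symm h3.symm
    have hxy' : x' ≠ y := by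
      rintro rfl
      exact A2 x h1 h2 h3
    rw [hcq x hxq hxy, hcq x' hxq' hxy'] at h3
    exact ⟨h1, h2, h3⟩
  · intro h
    have hm : (q, q') ∈ dbl a b (sw π q y) := by
      rw [h]
      simp only [dbl, mem_filter, mem_univ, true_and]
      exact ⟨hq1, hq2, hq3⟩
    simp only [dbl, mem_filter, mem_univ, true_and] at hm
    exact A1 q' (Ne.symm hq1) hq2.symm hm.2.2.symm

theorem switching (ha : ∀ i : R, (univ.filter fun q : Σ s, X s => row a q = i).card ≤ Δ)
    (hb : ∀ (π : Cf X) (v : V), (univ.filter fun q => col b π q = v).card ≤ Δ)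
    (m : ℕ) (hm : ∀ s, Fintype.card (Σ s, X s) ≤ m * Fintype.card (X s))
    (h4 : ∀ s, 4 * Δ ^ 2 ≤ Fintype.card (X s)) (hN : 0 < Fintype.card (Σ s, X s))
    (k : ℕ) (hk : 0 < k) :
    (univ.filter fun π : Cf X => (dbl a b π).card = k).card ≤
      2 * m * Δ ^ 2 * (univ.filter fun π : Cf X => (dbl a b π).card < k).card := by
  set N := Fintype.card (Σ s, X s) with hNdef
  have hne : Nonempty (Σ s, X s) := Fintype.card_pos_iff.1 hN
  have hex : ∀ π : Cf X, ∃ x : (Σ s, X s) × (Σ s, X s), (dbl a b π).card ≠ 0 → x ∈ dbl a b π := by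
    intro π
    by_cases h : (dbl a b π).card = 0
    · exact ⟨(hne.some, hne.some), fun h' => absurd h h'⟩
    · obtain ⟨x, hx⟩ := Finset.card_ne_zero.1 h
      exact ⟨x, fun _ => hx⟩
  choose d hd using hex
  set W := univ.filter fun x : Cf X × (Σ s, X s) =>
    (dbl a b x.1).card = k ∧ x.2 ∈ good a b x.1 (d x.1).1 with hW
  set T := univ.filter fun x : Cf X × ((Σ s, X s) × ((Σ s, X s) × (Σ s, X s))) =>
    (dbl a b x.1).card < k ∧ row a x.2.2.1 = row a x.2.1 ∧
      col b x.1 x.2.2.2 = col b x.1 x.2.1 with hT
  have hWc : W.card = ∑ π ∈ univ.filter (fun π : Cf X => (dbl a b π).card = k),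
      (good a b π (d π).1).card := by
    rw [hW, Finset.card_filter, Fintype.sum_prod_type, Finset.sum_filter]
    refine Finset.sum_congr rfl fun π _ => ?_
    by_cases h : (dbl a b π).card = k
    · rw [if_pos h]
      simp only [h, true_and]
      rw [← Finset.card_filter]
      congr 1
      ext y
      simp
    · rw [if_neg h]
      refine Finset.sum_eq_zero fun y _ => ?_
      rw [if_neg]
      exact fun h' => h h'.1
  have hWT : W.card ≤ T.card := by
    refine Finset.card_le_card_of_injOn
      (fun x => (sw x.1 (d x.1).1 x.2, ((d x.1).2, ((d x.1).1, x.2)))) ?_ ?_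
    · rintro ⟨π, y⟩ hx
      simp only [hW, coe_filter, mem_univ, true_and, Set.mem_ofPred_eq] at hx
      obtain ⟨h1, h2⟩ := hx
      have h3 : d π ∈ dbl a b π := hd π (by omega)
      have h3' : ((d π).1, (d π).2) ∈ dbl a b π := h3
      have h5 := dbl_sw π (d π).1 (d π).2 y h3' h2
      simp only [dbl, mem_filter, mem_univ, true_and] at h3
      obtain ⟨h31, h32, h33⟩ := h3
      have h2' := h2
      simp only [good, mem_filter, mem_univ, true_and] at h2'
      obtain ⟨h21, h22, h23⟩ := h2'
      simp only [hT, coe_filter, mem_univ, true_and, Set.mem_ofPred_eq]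
      refine ⟨by omega, h32, ?_⟩
      have hne1 : (d π).2 ≠ y := by
        intro h
        exact h22 (d π).2 h32.symm (by rw [h])
      rw [col_sw b π _ y h21, col_sw b π _ y h21, Equiv.swap_apply_right,
        Equiv.swap_apply_of_ne_of_ne (Ne.symm h31) hne1, h33]
    · rintro ⟨π, y⟩ - ⟨ρ, z⟩ - h
      simp only [Prod.mk.injEq] at h
      obtain ⟨h1, h2, h3, h4'⟩ := h
      subst h4'
      rw [← h3] at h1
      have := congrArg (fun σ => sw σ (d π).1 y) h1
      simp only [sw_sw] at this
      rw [this]
  have hTc : T.card ≤ (univ.filter fun π : Cf X => (dbl a b π).card < k).card * (N * (Δ * Δ)) := by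
    rw [hT, Finset.card_filter, Fintype.sum_prod_type]
    calc ∑ π : Cf X, ∑ x : (Σ s, X s) × ((Σ s, X s) × (Σ s, X s)),
          (if (dbl a b π).card < k ∧ row a x.2.1 = row a x.1 ∧ col b π x.2.2 = col b π x.1
            then 1 else 0)
        ≤ ∑ π : Cf X, if (dbl a b π).card < k then N * (Δ * Δ) else 0 := by
          refine Finset.sum_le_sum fun π _ => ?_
          by_cases h : (dbl a b π).card < k
          · rw [if_pos h]
            simp only [h, true_and]
            rw [Fintype.sum_prod_type]
            calc ∑ q' : Σ s, X s, ∑ x : (Σ s, X s) × (Σ s, X s),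
                  (if row a x.1 = row a q' ∧ col b π x.2 = col b π q' then 1 else 0)
                ≤ ∑ _q' : Σ s, X s, Δ * Δ := by
                  refine Finset.sum_le_sum fun q' _ => ?_
                  rw [← Finset.card_filter]
                  have : (univ.filter fun x : (Σ s, X s) × (Σ s, X s) =>
                      row a x.1 = row a q' ∧ col b π x.2 = col b π q') =
                      (univ.filter fun z : Σ s, X s => row a z = row a q') ×ˢ
                      (univ.filter fun z : Σ s, X s => col b π z = col b π q') := by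
                    ext ⟨x, x'⟩
                    simp
                  rw [this, Finset.card_product]
                  exact Nat.mul_le_mul (ha _) (hb π _)
              _ = N * (Δ * Δ) := by rw [Finset.sum_const, Finset.card_univ, smul_eq_mul]
          · rw [if_neg h]
            simp only [h, false_and, if_false, Finset.sum_const_zero, le_refl]
      _ = _ := by
          rw [← Finset.sum_filter, Finset.sum_const, smul_eq_mul]
  have hlow : N * (univ.filter fun π : Cf X => (dbl a b π).card = k).card ≤ 2 * m * W.card := by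
    rw [hWc, Finset.mul_sum, mul_comm, ← smul_eq_mul, ← Finset.sum_const]
    refine Finset.sum_le_sum fun π _ => ?_
    have h5 := card_good ha hb π (d π).1
    have h6 := h4 (d π).1.1
    calc N ≤ m * Fintype.card (X (d π).1.1) := hm _
      _ ≤ m * (2 * (good a b π (d π).1).card) := Nat.mul_le_mul_left _ (by omega)
      _ = _ := by ring
  have key : N * (univ.filter fun π : Cf X => (dbl a b π).card = k).card ≤
      N * (2 * m * Δ ^ 2 * (univ.filter fun π : Cf X => (dbl a b π).card < k).card) := by
    calc N * (univ.filter fun π : Cf X => (dbl a b π).card = k).card ≤ 2 * m * W.card := hlow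
      _ ≤ 2 * m * ((univ.filter fun π : Cf X => (dbl a b π).card < k).card * (N * (Δ * Δ))) :=
          Nat.mul_le_mul_left _ (hWT.trans hTc)
      _ = _ := by ring
  exact Nat.le_of_mul_le_mul_left key hN

theorem simp_main (ha : ∀ i : R, (univ.filter fun q : Σ s, X s => row a q = i).card ≤ Δ)
    (hb : ∀ (π : Cf X) (v : V), (univ.filter fun q => col b π q = v).card ≤ Δ)
    (m : ℕ) (hm : ∀ s, Fintype.card (Σ s, X s) ≤ m * Fintype.card (X s))
    (h2 : ∀ s, 2 ≤ Fintype.card (X s))
    (h4 : ∀ s, 4 * Δ ^ 2 ≤ Fintype.card (X s)) (hN : 0 < Fintype.card (Σ s, X s)) :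
    Fintype.card (Cf X) ≤ 2 * (1 + 2 * m * Δ ^ 2) ^ (2 * (2 * m * Δ ^ 2)) *
      (univ.filter fun π : Cf X => Simple a b π).card := by
  set B := 2 * m * Δ ^ 2 with hB
  have hstep : ∀ k : ℕ, (univ.filter fun π : Cf X => (dbl a b π).card ≤ k).card ≤
      (1 + B) ^ k * (univ.filter fun π : Cf X => Simple a b π).card := by
    intro k
    induction k with
    | zero =>
      rw [pow_zero, one_mul]
      refine Finset.card_le_card ?_
      intro π hπ
      simp only [mem_filter, mem_univ, true_and] at hπ ⊢
      rw [simple_iff]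
      omega
    | succ k ih =>
      have h5 := switching ha hb m hm h4 hN (k + 1) (Nat.succ_pos k)
      rw [← hB] at h5
      have h6 : (univ.filter fun π : Cf X => (dbl a b π).card ≤ k + 1) ⊆
          (univ.filter fun π : Cf X => (dbl a b π).card = k + 1) ∪
          (univ.filter fun π : Cf X => (dbl a b π).card < k + 1) := by
        intro π hπ
        simp only [mem_filter, mem_univ, true_and, mem_union] at hπ ⊢
        omega
      have h7 : (univ.filter fun π : Cf X => (dbl a b π).card < k + 1) =
          (univ.filter fun π : Cf X => (dbl a b π).card ≤ k) := by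
        ext π
        simp only [mem_filter, mem_univ, true_and]
        omega
      calc (univ.filter fun π : Cf X => (dbl a b π).card ≤ k + 1).card
          ≤ (univ.filter fun π : Cf X => (dbl a b π).card = k + 1).card +
            (univ.filter fun π : Cf X => (dbl a b π).card < k + 1).card :=
            (Finset.card_le_card h6).trans (Finset.card_union_le _ _)
        _ ≤ B * (univ.filter fun π : Cf X => (dbl a b π).card < k + 1).card +
            (univ.filter fun π : Cf X => (dbl a b π).card < k + 1).card :=
            Nat.add_le_add_right h5 _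
        _ = (1 + B) * (univ.filter fun π : Cf X => (dbl a b π).card ≤ k).card := by
            rw [h7]; ring
        _ ≤ (1 + B) * ((1 + B) ^ k * (univ.filter fun π : Cf X => Simple a b π).card) :=
            Nat.mul_le_mul_left _ ih
        _ = _ := by ring
  have hmean := sum_dbl ha hb m hm h2 hN
  rw [← hB] at hmean
  have hmk : (2 * B + 1) * (univ.filter fun π : Cf X => 2 * B < (dbl a b π).card).card ≤
      ∑ π : Cf X, (dbl a b π).card := by
    calc (2 * B + 1) * (univ.filter fun π : Cf X => 2 * B < (dbl a b π).card).card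
        = ∑ _π ∈ univ.filter (fun π : Cf X => 2 * B < (dbl a b π).card), (2 * B + 1) := by
          rw [Finset.sum_const, smul_eq_mul, mul_comm]
      _ ≤ ∑ π ∈ univ.filter (fun π : Cf X => 2 * B < (dbl a b π).card), (dbl a b π).card := by
          refine Finset.sum_le_sum fun π hπ => ?_
          simp only [mem_filter, mem_univ, true_and] at hπ
          omega
      _ ≤ _ := Finset.sum_le_sum_of_subset (Finset.filter_subset _ _)
  have hsplit : (univ.filter fun π : Cf X => (dbl a b π).card ≤ 2 * B).card +
      (univ.filter fun π : Cf X => 2 * B < (dbl a b π).card).card = Fintype.card (Cf X) := by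
    rw [← Finset.card_univ, ← Finset.card_filter_add_card_filter_not
      (s := (univ : Finset (Cf X))) (fun π : Cf X => (dbl a b π).card ≤ 2 * B)]
    congr 2
    ext π
    simp
  have hs := hstep (2 * B)
  set x := (univ.filter fun π : Cf X => 2 * B < (dbl a b π).card).card
  set y := (univ.filter fun π : Cf X => (dbl a b π).card ≤ 2 * B).card
  set P := Fintype.card (Cf X)
  have h8 : (2 * B + 1) * x ≤ B * P := hmk.trans hmean
  have h9 : P ≤ 2 * y := by
    by_contra hcon
    push Not at hcon
    have : P < 2 * x := by omega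
    nlinarith
  calc P ≤ 2 * y := h9
    _ ≤ 2 * ((1 + B) ^ (2 * B) * (univ.filter fun π : Cf X => Simple a b π).card) :=
        Nat.mul_le_mul_left _ hs
    _ = _ := by ring

end main

theorem t_SIMP : S_SIMP := by
  intro S _ _ Δ δ hδ
  set m : ℕ := ⌈1 / δ⌉₊ with hm
  refine ⟨2 * (1 + 2 * m * Δ ^ 2) ^ (2 * (2 * m * Δ ^ 2)) + m * (4 * Δ ^ 2 + 2) + 1, ?_⟩
  intro R V _ _ X _ _ a b ha hb hδX hC
  set N := Fintype.card (Σ s, X s) with hN
  have hm1 : 1 ≤ (m : ℝ) * δ := by
    have h1 : 1 / δ ≤ m := Nat.le_ceil _
    rwa [div_le_iff₀ hδ] at h1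
  have hmX : ∀ s, N ≤ m * Fintype.card (X s) := by
    intro s
    have h1 := hδX s
    have h2 : (N : ℝ) ≤ (m : ℝ) * Fintype.card (X s) := by
      calc (N : ℝ) = 1 * N := (one_mul _).symm
        _ ≤ (m * δ) * N := mul_le_mul_of_nonneg_right hm1 (Nat.cast_nonneg _)
        _ = m * (δ * N) := by ring
        _ ≤ _ := mul_le_mul_of_nonneg_left h1 (Nat.cast_nonneg _)
    exact_mod_cast h2
  have hm0 : 0 < m := by
    rcases Nat.eq_zero_or_pos m with h | h
    · rw [h] at hm1
      norm_num at hm1
    · exact h
  have hbig : ∀ s, 4 * Δ ^ 2 + 2 ≤ Fintype.card (X s) := by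
    intro s
    have h1 := hmX s
    have h3 : m * (4 * Δ ^ 2 + 2) ≤ m * Fintype.card (X s) := by
      refine le_trans ?_ h1
      omega
    exact Nat.le_of_mul_le_mul_left h3 hm0
  have hN0 : 0 < N := by omega
  have ha' : ∀ i : R, (univ.filter fun q : Σ s, X s => row a q = i).card ≤ Δ := by
    intro i
    refine le_trans (le_of_eq ?_) (ha i)
    exact card_slots a i
  have hb' : ∀ (π : Cf X) (v : V), (univ.filter fun q => col b π q = v).card ≤ Δ := by
    intro π v
    exact (card_col b π v).trans (hb v)
  have hmain := simp_main ha' hb' m hmX (fun s => by have := hbig s; omega)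
    (fun s => by have := hbig s; omega) hN0
  have hcard : Fintype.card (Cf X) = ∏ s, (Fintype.card (X s)).factorial := by
    rw [Fintype.card_pi]
    refine Finset.prod_congr rfl fun s _ => ?_
    exact Fintype.card_perm
  rw [← hcard]
  refine hmain.trans (Nat.mul_le_mul_right _ ?_)
  omega

end Pool.Agent.L0h64.KC
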